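import Pool.Agent.Helper15.HamFourProof

namespace Pool.Agent.Results.MP_ef0d97_co.CubicOrder

open Pool.Agent.Helper15.HamFour

/-- `v(n)` has cubic order of magnitude; in particular `v(n) ≤ c n^2` fails for every constant. -/
theorem result :
    (∀ n : ℕ, 4 ≤ n →
      (∃ F : Finset (Finset (Fin n)), Blocking F ∧ VertexTransitive F ∧ F.card = v n) ∧
      (n - 1) * (n - 2) * (n - 3) < 3072 * v n ∧
      2 * v n ≤ n * (n - 2) * (n - 3)) ∧
    ¬ ∃ c : ℝ, ∀ n : ℕ, 4 ≤ n → (v n : ℝ) ≤ c * (n : ℝ) ^ 2 :=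
  cubic_order

end Pool.Agent.Results.MP_ef0d97_co.CubicOrder
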